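import Mathlib
import Pool.Agent.Lib.MP_34cb91_co.Upper

set_option autoImplicit false

/-!
# The smallest critical sets of latin squares

`scs(n) = d(K_n x K_n, n) = floor(n^2 / 4)`, and every partial array with fewer than `floor(n^2 / 4)`
entries has an even number of completions to latin squares.
-/

namespace Pool.Agent.Results.MP_34cb91_co.SmallestCriticalSet

/-- An array is a latin square if every symbol occurs exactly once in every row and exactly once in
every column. -/
def IsLatin {n : ℕ} (L : Fin n → Fin n → Fin n) : Prop :=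
  (∀ i s, ∃! j, L i j = s) ∧ ∀ j s, ∃! i, L i j = s

/-- The entries of an array, as triples (row, column, symbol). -/
def entries {n : ℕ} (L : Fin n → Fin n → Fin n) : Set (Fin n × Fin n × Fin n) :=
  {t | L t.1 t.2.1 = t.2.2}

/-- `P` is a defining set of the latin square `L`: `P` is contained in `L`, and `L` is the only latin
square which contains `P`. -/
def IsDefining {n : ℕ} (L : Fin n → Fin n → Fin n) (P : Finset (Fin n × Fin n × Fin n)) : Prop :=
  (P : Set (Fin n × Fin n × Fin n)) ⊆ entries L ∧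
    ∀ M : Fin n → Fin n → Fin n, IsLatin M → (P : Set (Fin n × Fin n × Fin n)) ⊆ entries M → M = L

/-- `P` is a critical set of `L`: a defining set none of whose proper subsets is a defining set. -/
def IsCritical {n : ℕ} (L : Fin n → Fin n → Fin n) (P : Finset (Fin n × Fin n × Fin n)) : Prop :=
  IsDefining L P ∧ ∀ Q, Q ⊂ P → ¬ IsDefining L Q

/-- `scs(n)`: the smallest size of a critical set of a latin square of order `n`. -/
noncomputable def scs (n : ℕ) : ℕ :=
  sInf {k | ∃ (L : Fin n → Fin n → Fin n) (P : Finset (Fin n × Fin n × Fin n)),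
    IsLatin L ∧ IsCritical L P ∧ P.card = k}

/-- The defining number `d(G, k)`: the smallest number of vertices which can be coloured such that
there is exactly one extension to a proper `k`-colouring of `G`. -/
noncomputable def definingNumber {V : Type} (G : SimpleGraph V) (k : ℕ) : ℕ :=
  sInf {m | ∃ (S : Finset V) (c : V → Fin k), S.card = m ∧
    ∃! f : G.Coloring (Fin k), ∀ v ∈ S, f v = c v}

open Pool34cb91 in
lemma isLatin_iff {n : ℕ} (L : Fin n → Fin n → Fin n) : IsLatin L ↔ Latin L := by
  constructor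
  · rintro ⟨h1, h2⟩
    refine ⟨fun i j j' h => ?_, fun j i i' h => ?_⟩
    · exact (h1 i (L i j')).unique h rfl
    · exact (h2 j (L i' j)).unique h rfl
  · rintro ⟨h1, h2⟩
    exact ⟨fun i => (Finite.injective_iff_bijective.1 (h1 i)).existsUnique,
      fun j => (Finite.injective_iff_bijective.1 (h2 j)).existsUnique⟩

/-- The parity theorem. -/
lemma even_card (n : ℕ) (P : Finset (Fin n × Fin n × Fin n)) (hP : P.card < n ^ 2 / 4) :
    Even {L : Fin n → Fin n → Fin n |
      IsLatin L ∧ (P : Set (Fin n × Fin n × Fin n)) ⊆ entries L}.ncard := by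
  classical
  by_cases hex : ∃ L : Fin n → Fin n → Fin n,
      (P : Set (Fin n × Fin n × Fin n)) ⊆ entries L
  swap
  · have : {L : Fin n → Fin n → Fin n |
        IsLatin L ∧ (P : Set (Fin n × Fin n × Fin n)) ⊆ entries L} = ∅ := by
      rw [Set.eq_empty_iff_forall_notMem]
      rintro L ⟨_, h⟩
      exact hex ⟨L, h⟩
    rw [this, Set.ncard_empty]
    exact Even.zero
  obtain ⟨L, hL⟩ := hex
  set S : Finset (Fin n × Fin n) := P.image (fun t => (t.1, t.2.1)) with hSdef
  have hScard : S.card ≤ P.card := Finset.card_image_le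
  have hmem : ∀ M : Fin n → Fin n → Fin n, (P : Set (Fin n × Fin n × Fin n)) ⊆ entries M ↔
      ∀ c ∈ S, M c.1 c.2 = L c.1 c.2 := by
    intro M
    constructor
    · intro h c hc
      obtain ⟨t, ht, rfl⟩ := Finset.mem_image.1 hc
      have h1 : M t.1 t.2.1 = t.2.2 := h ht
      have h2 : L t.1 t.2.1 = t.2.2 := hL ht
      exact h1.trans h2.symm
    · intro h t ht
      have h2 : L t.1 t.2.1 = t.2.2 := hL ht
      show M t.1 t.2.1 = t.2.2
      rw [← h2]
      exact h (t.1, t.2.1) (Finset.mem_image.2 ⟨t, ht, rfl⟩)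
  have hid : (n - n / 2) * (n - n / 2) + n / 2 * n + n ^ 2 / 4 = n * n := by
    rcases Nat.even_or_odd' n with ⟨m, hm | hm⟩
    · have h1 : n / 2 = m := by omega
      have h2 : n - n / 2 = m := by omega
      have h3 : n ^ 2 / 4 = m * m := by
        rw [hm]
        have : (2 * m) ^ 2 = 4 * (m * m) := by ring
        rw [this]
        omega
      rw [h2, h3, h1, hm]
      ring
    · have h1 : n / 2 = m := by omega
      have h2 : n - n / 2 = m + 1 := by omega
      have h3 : n ^ 2 / 4 = m * m + m := by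
        rw [hm]
        have : (2 * m + 1) ^ 2 = 4 * (m * m + m) + 1 := by ring
        rw [this]
        omega
      rw [h2, h3, h1, hm]
      ring
  have hcard : (Finset.univ \ S).card = n * n - S.card := by
    rw [Finset.card_sdiff_of_subset (Finset.subset_univ S), Finset.card_univ, Fintype.card_prod,
      Fintype.card_fin]
  have hpar := Pool34cb91.parity n (n / 2) (Nat.div_le_self _ _) L S (by rw [hcard]; omega)
  rw [ZMod.natCast_eq_zero_iff_even] at hpar
  convert hpar using 1
  rw [← Set.ncard_coe_finset]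
  have himg : {L : Fin n → Fin n → Fin n |
      IsLatin L ∧ (P : Set (Fin n × Fin n × Fin n)) ⊆ entries L} =
      (fun M : Fin n × Fin n → Fin n => fun i j => M (i, j)) ''
        ((Finset.univ.filter (fun M : Fin n × Fin n → Fin n =>
          Pool34cb91.Latin (fun i j => M (i, j)) ∧ ∀ c ∈ S, M c = L c.1 c.2) :
            Finset (Fin n × Fin n → Fin n)) : Set (Fin n × Fin n → Fin n)) := by
    ext M
    simp only [Set.mem_setOf_eq, Set.mem_image, Finset.coe_filter, Finset.mem_univ, true_and]
    rw [isLatin_iff, hmem]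
    constructor
    · rintro ⟨h1, h2⟩
      exact ⟨fun c => M c.1 c.2, ⟨h1, h2⟩, rfl⟩
    · rintro ⟨N, ⟨h1, h2⟩, rfl⟩
      exact ⟨h1, h2⟩
  rw [himg, Set.ncard_image_of_injective]
  intro M N h
  funext c
  exact congrFun (congrFun h c.1) c.2

/-- A defining set has at least `floor(n^2 / 4)` elements. -/
lemma le_card {n : ℕ} {L : Fin n → Fin n → Fin n} (hL : IsLatin L)
    {P : Finset (Fin n × Fin n × Fin n)} (hP : IsDefining L P) : n ^ 2 / 4 ≤ P.card := by
  by_contra hlt
  push Not at hlt
  have h := even_card n P hlt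
  have h1 : {L : Fin n → Fin n → Fin n |
      IsLatin L ∧ (P : Set (Fin n × Fin n × Fin n)) ⊆ entries L} = {L} := by
    ext M
    simp only [Set.mem_setOf_eq, Set.mem_singleton_iff]
    constructor
    · rintro ⟨h1, h2⟩
      exact hP.2 M h1 h2
    · rintro rfl
      exact ⟨hL, hP.1⟩
  rw [h1, Set.ncard_singleton] at h
  exact absurd h (by decide)

/-- The defining set of the cyclic latin square. -/
def cyc (n : ℕ) : Finset (Fin n × Fin n × Fin n) :=
  (Pool34cb91.cells n).image (fun c => (c.1, c.2, Pool34cb91.back c.1 c.2))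

lemma card_cyc (n : ℕ) : (cyc n).card = n ^ 2 / 4 := by
  rw [cyc, Finset.card_image_of_injective, Pool34cb91.card_cells]
  rintro ⟨a, b⟩ ⟨c, d⟩ h
  simp only [Prod.mk.injEq] at h
  rw [Prod.mk.injEq]
  exact ⟨h.1, h.2.1⟩

lemma isLatin_back (n : ℕ) : IsLatin (Pool34cb91.back (n := n)) :=
  (isLatin_iff _).2 (Pool34cb91.back_latin n)

lemma defining_cyc (n : ℕ) : IsDefining (Pool34cb91.back (n := n)) (cyc n) := by
  constructor
  · intro t ht
    obtain ⟨c, _, rfl⟩ := Finset.mem_image.1 (Finset.mem_coe.1 ht)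
    exact rfl
  · intro M hM h
    apply Pool34cb91.upper n M ((isLatin_iff _).1 hM)
    intro c hc
    exact h (Finset.mem_coe.2 (Finset.mem_image.2 ⟨c, hc, rfl⟩))

lemma isLeast (n : ℕ) : IsLeast {k | ∃ (L : Fin n → Fin n → Fin n)
    (P : Finset (Fin n × Fin n × Fin n)), IsLatin L ∧ IsCritical L P ∧ P.card = k} (n ^ 2 / 4) := by
  constructor
  · refine ⟨Pool34cb91.back, cyc n, isLatin_back n, ⟨defining_cyc n, ?_⟩, card_cyc n⟩
    intro Q hQ hdef
    have h1 := le_card (isLatin_back n) hdef
    have h2 := Finset.card_lt_card hQ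
    rw [card_cyc] at h2
    omega
  · rintro k ⟨L, P, hL, hP, rfl⟩
    exact le_card hL hP.1

lemma latin_of_coloring {n : ℕ}
    (f : ((⊤ : SimpleGraph (Fin n)) □ (⊤ : SimpleGraph (Fin n))).Coloring (Fin n)) :
    IsLatin (fun i j => f (i, j)) := by
  rw [isLatin_iff]
  constructor
  · intro i j j' h
    by_contra hne
    have hadj : ((⊤ : SimpleGraph (Fin n)) □ (⊤ : SimpleGraph (Fin n))).Adj (i, j) (i, j') := by
      rw [SimpleGraph.boxProd_adj]
      exact Or.inr ⟨hne, rfl⟩
    exact f.valid hadj h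
  · intro j i i' h
    by_contra hne
    have hadj : ((⊤ : SimpleGraph (Fin n)) □ (⊤ : SimpleGraph (Fin n))).Adj (i, j) (i', j) := by
      rw [SimpleGraph.boxProd_adj]
      exact Or.inl ⟨hne, rfl⟩
    exact f.valid hadj h

/-- A latin square as a colouring. -/
def toColoring {n : ℕ} (L : Fin n → Fin n → Fin n) (hL : IsLatin L) :
    ((⊤ : SimpleGraph (Fin n)) □ (⊤ : SimpleGraph (Fin n))).Coloring (Fin n) :=
  SimpleGraph.Coloring.mk (fun c => L c.1 c.2) (by
    rintro ⟨i, j⟩ ⟨i', j'⟩ hadj heq
    rw [isLatin_iff] at hL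
    rw [SimpleGraph.boxProd_adj] at hadj
    rcases hadj with ⟨h1, h2⟩ | ⟨h1, h2⟩
    · simp only at h1 h2 heq
      subst h2
      exact h1 (hL.2 j heq)
    · simp only at h1 h2 heq
      subst h2
      exact h1 (hL.1 i heq))

lemma toColoring_apply {n : ℕ} (L : Fin n → Fin n → Fin n) (hL : IsLatin L) (c : Fin n × Fin n) :
    toColoring L hL c = L c.1 c.2 := rfl

lemma isLeast_defining (n : ℕ) : IsLeast {m | ∃ (S : Finset (Fin n × Fin n))
    (c : Fin n × Fin n → Fin n), S.card = m ∧
    ∃! f : ((⊤ : SimpleGraph (Fin n)) □ (⊤ : SimpleGraph (Fin n))).Coloring (Fin n),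
      ∀ v ∈ S, f v = c v} (n ^ 2 / 4) := by
  constructor
  · refine ⟨Pool34cb91.cells n, fun c => Pool34cb91.back c.1 c.2, Pool34cb91.card_cells n,
      toColoring _ (isLatin_back n), fun v _ => rfl, ?_⟩
    intro g hg
    have h := Pool34cb91.upper n (fun i j => g (i, j)) ((isLatin_iff _).1 (latin_of_coloring g))
      (fun p hp => hg p hp)
    apply DFunLike.ext
    rintro ⟨i, j⟩
    exact congrFun (congrFun h i) j
  · rintro m ⟨S, c, rfl, f, hf, huniq⟩
    apply Pool34cb91.lower n (fun i j => f (i, j)) ((isLatin_iff _).1 (latin_of_coloring f)) S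
    intro M hM hS
    have h := huniq (toColoring M ((isLatin_iff _).2 hM)) (fun v hv => by
      show M v.1 v.2 = c v
      rw [hS v hv]
      exact hf v hv)
    funext i j
    exact DFunLike.congr_fun h (i, j)

/-- **The conjecture of Mahmoodian and of Bate and van Rees**: for every `n`, `scs(n)` and
`d(K_n x K_n, n)` equal `floor(n^2 / 4)`. Moreover every set of fewer than `floor(n^2 / 4)` entries
is contained in an even number of latin squares of order `n`. -/
theorem result (n : ℕ) :
    scs n = n ^ 2 / 4 ∧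
    definingNumber ((⊤ : SimpleGraph (Fin n)) □ (⊤ : SimpleGraph (Fin n))) n = n ^ 2 / 4 ∧
    (∃ (L : Fin n → Fin n → Fin n) (P : Finset (Fin n × Fin n × Fin n)),
      IsLatin L ∧ IsCritical L P ∧ P.card = n ^ 2 / 4) ∧
    ∀ P : Finset (Fin n × Fin n × Fin n), P.card < n ^ 2 / 4 →
      Even {L : Fin n → Fin n → Fin n |
        IsLatin L ∧ (P : Set (Fin n × Fin n × Fin n)) ⊆ entries L}.ncard :=
  ⟨(isLeast n).csInf_eq, (isLeast_defining n).csInf_eq, (isLeast n).1, even_card n⟩

end Pool.Agent.Results.MP_34cb91_co.SmallestCriticalSet
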